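import Pool.Agent.Q212.LTreeCH
import Pool.Agent.Q212.LTreeMA
import Pool.Agent.W684.FM.Ambient
import Pool.Agent.Helper292.ForceCH

/-!
# `MP_2757db_lc`, Q1: independent of ZFC

*Is `T × T` Lindelof for every tree `T` which is Lindelof in the fine wedge topology?*

The answer is independent of ZFC. Under the continuum hypothesis (which can be forced over every
model) there is a Lindelof tree of height `ω + 1` and size `ℵ₁` whose square is not Lindelof; under
Martin's axiom for `ℵ₁` dense sets (which can be forced over every model) the product of a Lindelof
tree with an arbitrary Lindelof space is Lindelof, in particular all finite powers of a Lindelof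
tree are Lindelof.

**CH.** The tree consists of the finite sequences of natural numbers and of `ℵ₁` branches
`x_α, y_α` (`α < ω₁`). The branches are chosen so that for every function `g` on the finite
sequences all but countably many of them satisfy `x(n) > g(x|n)` for some `n`, which makes the tree
Lindelof, and so that for all `α` and all `m, n` one of `x_α(m) ≤ m + n` and `y_α(n) ≤ m + n`
holds. Then no pair `(x_α, y_α)` belongs to one of the open boxes `N(u) × N(v)`, where `N(u)` is the
cone of `u` without the cones of its first `|u| + |v| + 1` immediate successors, and similarly for
`N(v)`; so these boxes and the sets `{x_α} × T` and `T × {y_α}` (completed to a cover) show that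
the square is not Lindelof.

**MA.** In a Lindelof tree all finitely splitting subtrees are countable (for trees of arbitrary
height and arbitrary levels). If `T × Y` is not Lindelof for some Lindelof `Y`, there is an
uncountable countably splitting subtree `S`; it can be taken of size `ℵ₁`. The finite subsets `p` of
`S`, ordered by: `q ≤ p` if `p ⊆ q` and above every `s ∈ p` the elements of `q` extend only the
immediate successors of `s` which are below elements of `p`, satisfy the countable chain condition,
and a generic filter produces an uncountable finitely splitting subtree.

Definitions used in the statement: `IsTree`, `fineWedge`, `LindelofTree`, `LindelofProduct` (in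
`Pool.Agent.Q212.LTree`) are the notions of the problem. `MartinAxiomAleph1` (in
`Pool.Agent.W684.MADef`) is the usual form of Martin's axiom for `ℵ₁` dense sets; `MartinFor Om1`
is an equivalent form for preorders with underlying set `ω₁`, and `MartinHolds P Om1` is its literal
translation into the forcing language of `Pool.Agent.Helper669.Forcing`, in which a sentence is
represented by the set of the conditions which force it. `CHHolds` (in
`Pool.Agent.Helper292.ForceCH`) is the continuum hypothesis in the same language.
-/

set_option autoImplicit false

namespace Pool.Agent.Results.MP_2757db_lc.SquareIndependent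

open Cardinal
open Pool.Agent.Q212.LTree Pool.Agent.W684 Pool.Agent.W684.FM Pool.Agent.Helper669.Forcing

universe u v

/-- **Main theorem.** (A) Some notion of forcing forces that `ω₁` is preserved and that the
continuum hypothesis holds, and the continuum hypothesis implies that there is a tree which is
Lindelof in the fine wedge topology and whose square is not Lindelof. (B) Some notion of forcing
forces that cardinals are preserved and that Martin's axiom for `ℵ₁` dense sets holds, and this
axiom implies that for every tree `T` which is Lindelof in the fine wedge topology the square
`T × T` is Lindelof, and more generally `T × Y` is Lindelof for every Lindelof space `Y`. -/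
theorem result :
    ((∃ (P : Type) (_ : Preorder P), Nonempty P ∧ ∀ p : P,
        p ∈ Pool.Agent.Helper292.ForceCH.OmegaOnePreserved P ∧
        p ∈ Pool.Agent.Helper292.ForceCH.CHHolds P) ∧
      ((ℵ_ 1 : Cardinal.{0}) = 𝔠 → ∃ (T : Type) (_ : PartialOrder T),
        IsTree T ∧ LindelofTree T ∧ ¬ LindelofProduct T T (fineWedge T))) ∧
    (((∃ (P : Type) (_ : Preorder P), Nonempty P ∧ ∀ p : P,
          p ∈ CardinalsPreserved.{0, 0} P ∧ p ∈ OmegaOnePreserved P ∧ p ∈ MartinHolds P Om1) ∧
        (MartinFor Om1 ↔ MartinAxiomAleph1)) ∧
      (MartinAxiomAleph1 → ∀ (T : Type u) [PartialOrder T], IsTree T → LindelofTree T →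
        LindelofProduct T T (fineWedge T) ∧
        ∀ (Y : Type v) (τ : TopologicalSpace Y), @LindelofSpace Y τ → LindelofProduct T Y τ)) := by
  refine ⟨⟨?_, exists_tree⟩, ⟨exists_forcing Om1, martinFor_om1_iff⟩, ?_⟩
  · obtain ⟨P, i, h1, h2⟩ := Pool.Agent.Helper292.ForceCH.exists_forcing
    exact ⟨P, i, h1, fun p => ⟨(h2 p).1, (h2 p).2.2⟩⟩
  · intro hMA T _ hT hL
    refine ⟨?_, fun Y τ hY => ?_⟩
    · have : @LindelofSpace T (fineWedge T) := hL
      exact @lindelofProduct_of_MA hMA T _ hT hL T (fineWedge T) this
    · exact @lindelofProduct_of_MA hMA T _ hT hL Y τ hY

end Pool.Agent.Results.MP_2757db_lc.SquareIndependent
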